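import Pool.Agent.H3.St8

set_option autoImplicit false

namespace Pool.Agent.Results.MP_497448_gt.Square

open Pool.Agent.H3.St Pool.Agent.H3.St.Nb

/-- There are a compact planar set `M`, a radius `r > 0`, an `r`-minimizer `S` for `M` and an
`r`-minimizer `T` for the closed `r`-neighbourhood of `S` with `T ≠ S`. -/
theorem result :
    ∃ (M S T : Set (EuclideanSpace ℝ (Fin 2))) (r : ℝ), IsCompact M ∧ 0 < r ∧
      (IsCompact S ∧ IsConnected S ∧ M ⊆ {x | Metric.infDist x S ≤ r} ∧
        ∀ U : Set (EuclideanSpace ℝ (Fin 2)), IsCompact U → IsConnected U →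
          M ⊆ {x | Metric.infDist x U ≤ r} →
          MeasureTheory.Measure.hausdorffMeasure (1 : ℝ) S ≤
            MeasureTheory.Measure.hausdorffMeasure (1 : ℝ) U) ∧
      (IsCompact T ∧ IsConnected T ∧
        {x | Metric.infDist x S ≤ r} ⊆ {x | Metric.infDist x T ≤ r} ∧
        ∀ U : Set (EuclideanSpace ℝ (Fin 2)), IsCompact U → IsConnected U →
          {x | Metric.infDist x S ≤ r} ⊆ {x | Metric.infDist x U ≤ r} →
          MeasureTheory.Measure.hausdorffMeasure (1 : ℝ) T ≤
            MeasureTheory.Measure.hausdorffMeasure (1 : ℝ) U) ∧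
      T ≠ S := by
  have hs : √3 * √3 = (3 : ℝ) := Real.mul_self_sqrt (by norm_num)
  have hs1 : (173 / 100 : ℝ) < √3 := Real.lt_sqrt_of_sq_lt (by norm_num)
  have r0 : (0 : ℝ) < 2 * √3 := by linarith
  have e : ∀ U : Set E, IsConnected U →
      {x | Metric.infDist x U ≤ 2 * √3} = Metric.cthickening (2 * √3) U := by
    intro U hU
    ext x
    rw [Metric.mem_cthickening_iff, Set.mem_setOf_eq, Metric.infDist,
      ENNReal.le_ofReal_iff_toReal_le (Metric.infEDist_ne_top hU.nonempty) r0.le]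
  have cS : IsConnected (SS √3) := tree5_conn _ _ _ _ _ _
  have cT : IsConnected (TT √3) := tree5_conn _ _ _ _ _ _
  refine ⟨MM √3, SS √3, TT √3, 2 * √3, by unfold MM; exact (Set.toFinite _).isCompact, r0,
    ⟨tree5_compact _ _ _ _ _ _, cS, ?_, fun U a b c => ?_⟩,
    ⟨tree5_compact _ _ _ _ _ _, cT, ?_, fun U a b c => ?_⟩, ne hs1⟩
  · rw [e _ cS]; exact cover hs hs1 (SS_good _)
  · rw [e _ b] at c; exact (SS_len hs hs1).trans (lower hs hs1 U a b c)
  · rw [e _ cS, e _ cT]; exact sub hs hs1 (TT_good _)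
  · rw [e _ cS, e _ b] at c
    exact (TT_len hs hs1).trans (lower hs hs1 U a b ((cover hs hs1 (SS_good _)).trans c))

end Pool.Agent.Results.MP_497448_gt.Square
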